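import Mathlib
import Pool.Agent.MP_df5a96_ag.Sheaf

set_option autoImplicit false

universe u

open Pool.Agent.MP_df5a96_ag

/-- Over every field `K` there is a coherent sheaf `F` on `P^1 x P^1` (given by a finitely
generated bigraded module) whose Tate resolution `T = T(F)` admits a double-complex structure,
although `F` is not isomorphic to a direct sum of box products. -/
theorem Pool.Agent.Results.MP_df5a96_ag.NotBoxProducts.result :
    ∀ (K : Type u) [Field K], ∃ F : BiMod K, F.FG ∧
      (∃ T : FreeCx K, IsTateResolutionOf T F ∧ T.HasDoubleComplexStructure) ∧
      ¬ IsSumOfBoxProducts F :=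
  fun K _ => main K
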